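import Pool.Agent.V11257.Mg6
import Pool.Agent.V11257.Zt9

/-!
# A model of ZF with two P-spaces whose product is not a P-space

The model is a symmetric model with a copy `A` of `ω × ω`, in which every level `A_n` is a disjoint
union of two infinite sets that are known only up to finite changes, and names for all subsets of
`A` that meet only finitely many levels. The spaces are `A` with one more point whose
neighbourhoods are the complements of the sets of an ideal `I` (`J` for the second space): `I`
(`J`) is the ideal of the sets that meet only finitely many levels and whose part in every level
is almost contained in the first (second) half of the level.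
-/

namespace Pool.Agent.Results.MP_e864e9_lc.PPPFails

open FirstOrder FirstOrder.Language
open Pool.Agent.Helper672.Plain (LSet)
open Pool.Agent.H635Amen (ZF)
open Pool.Agent.V11257H
open Pool.Agent.V11257Z (exists_of_forall)

universe u

/-- There is a model of ZF (and for every model of ZF there is one in the same universe) with two
P-spaces whose product is not a P-space. -/
theorem result : (∃ (N : Type 1) (_ : LSet.Structure N), ZF N ∧ ¬ PPP N) ∧
    ∀ (M : Type u) [LSet.Structure M], ZF M → ∃ (N : Type u) (_ : LSet.Structure N),
      ZF N ∧ ¬ PPP N :=
  ⟨exists_of_forall fun M _ hM => exists_not_ppp M hM, fun M _ hM => exists_not_ppp M hM⟩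

end Pool.Agent.Results.MP_e864e9_lc.PPPFails
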